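import Mathlib
import Pool.Agent.TH577.Blum4

/-!
# A compact linearly ordered space without the Blumberg property, in ZFC

Let `S ⊆ ω₁` be stationary with stationary complement. The points of the space are the subsets `x`
of `S` such that a limit point `δ` of `x` belongs to `x` if `δ ∈ S` and is an upper bound of `x` if
`δ ∉ S`; the order is lexicographic. All suprema exist, so the space is compact; there are at
most continuum many points, since no closed unbounded set is contained in `S`; and, because `S` is
stationary, countably many open sets can be decided simultaneously by a nonempty open set (fusion
in the tree of closed bounded subsets of `S`). Hence a real function which is continuous on a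
somewhere dense set is constant on a part of it with two points, and no injective function is.
-/

set_option autoImplicit false

namespace Pool.Agent.Results.MP_184855_gt.CompactLots

/-- The Blumberg property: each function into the reals has a continuous restriction to some dense
set. -/
def Blumberg (X : Type) [TopologicalSpace X] : Prop :=
  ∀ f : X → ℝ, ∃ D : Set X, Dense D ∧ ContinuousOn f D

/-- There is a compact linearly ordered topological space which does not have the Blumberg
property. Moreover, there are injective functions from it to the reals, and one of them has no
continuous restriction to a somewhere dense set. -/
theorem result : ∃ (X : Type) (_ : LinearOrder X) (_ : TopologicalSpace X),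
    OrderTopology X ∧ CompactSpace X ∧ ¬ Blumberg X ∧ ∃ f : X → ℝ, Function.Injective f ∧
      ∀ D : Set X, (interior (closure D)).Nonempty → ¬ ContinuousOn f D := by
  obtain ⟨X, i1, i2, h0, h1, h2, f, hf, h3⟩ := Pool.Agent.TH577.Blum.main
  refine ⟨X, i1, i2, h1, h2, fun hB => ?_, f, hf, h3⟩
  obtain ⟨D, hD, hc⟩ := hB f
  exact h3 D (by rw [hD.closure_eq, interior_univ]; exact Set.univ_nonempty) hc

end Pool.Agent.Results.MP_184855_gt.CompactLots
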